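import Pool.Agent.Helper87.HQ.St

/-!
# Project HQ, module C2: the eigenspace in coordinates
-/

set_option autoImplicit false

namespace Pool.Agent.Helper13.HQ

open Pool.Agent.Helper87.HQ Set

private theorem const_of_deriv {P : ℝ → ℝ} {l : ℝ} (hl : 0 < l)
    (h : ∀ x ∈ Icc (0 : ℝ) l, HasDerivWithinAt P 0 (Icc (0 : ℝ) l) x) :
    ∀ x ∈ Icc (0 : ℝ) l, P x = P 0 := by
  intro x hx
  have hd : DifferentiableOn ℝ P (Icc (0 : ℝ) l) := fun y hy => (h y hy).differentiableWithinAt
  refine constant_of_derivWithin_zero hd (fun y hy => ?_) x hx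
  exact (h y ⟨hy.1, hy.2.le⟩).derivWithin (uniqueDiffOn_Icc hl y ⟨hy.1, hy.2.le⟩)

private theorem hcos (κ x : ℝ) :
    HasDerivAt (fun x : ℝ => Real.cos (κ * x)) (-κ * Real.sin (κ * x)) x := by
  have h1 : HasDerivAt (fun x : ℝ => κ * x) κ x := by
    simpa using (hasDerivAt_id x).const_mul κ
  refine h1.cos.congr_deriv ?_
  ring

private theorem hsin (κ x : ℝ) :
    HasDerivAt (fun x : ℝ => Real.sin (κ * x)) (κ * Real.cos (κ * x)) x := by
  have h1 : HasDerivAt (fun x : ℝ => κ * x) κ x := by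
    simpa using (hasDerivAt_id x).const_mul κ
  refine h1.sin.congr_deriv ?_
  ring

private theorem ode_pos {f g : ℝ → ℝ} {κ l : ℝ} (hl : 0 < l) (hκ : κ ≠ 0)
    (hf : ∀ x ∈ Icc (0 : ℝ) l, HasDerivWithinAt f (g x) (Icc (0 : ℝ) l) x)
    (hg : ∀ x ∈ Icc (0 : ℝ) l, HasDerivWithinAt g (-κ ^ 2 * f x) (Icc (0 : ℝ) l) x) :
    ∀ x ∈ Icc (0 : ℝ) l, f x = f 0 * Real.cos (κ * x) + g 0 / κ * Real.sin (κ * x) ∧
      g x = -κ * f 0 * Real.sin (κ * x) + g 0 * Real.cos (κ * x) := by
  have hP := const_of_deriv hl (P := fun x => κ * f x * Real.cos (κ * x) - g x * Real.sin (κ * x)) (by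
    intro x hx
    have h1 := (((hf x hx).const_mul κ).mul (hcos κ x).hasDerivWithinAt).sub
      ((hg x hx).mul (hsin κ x).hasDerivWithinAt)
    refine h1.congr_deriv ?_
    ring)
  have hQ := const_of_deriv hl (P := fun x => g x * Real.cos (κ * x) + κ * f x * Real.sin (κ * x)) (by
    intro x hx
    have h1 := ((hg x hx).mul (hcos κ x).hasDerivWithinAt).add
      (((hf x hx).const_mul κ).mul (hsin κ x).hasDerivWithinAt)
    refine h1.congr_deriv ?_
    ring)
  intro x hx
  have e1 := hP x hx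
  have e2 := hQ x hx
  simp only [mul_zero, Real.cos_zero, Real.sin_zero, mul_one, sub_zero, add_zero] at e1 e2
  have e3 := Real.cos_sq_add_sin_sq (κ * x)
  constructor
  · have : κ * f x = κ * (f 0 * Real.cos (κ * x) + g 0 / κ * Real.sin (κ * x)) := by
      have e4 : κ * (f 0 * Real.cos (κ * x) + g 0 / κ * Real.sin (κ * x)) =
          κ * f 0 * Real.cos (κ * x) + g 0 * Real.sin (κ * x) := by field_simp
      rw [e4, ← e1, ← e2]
      linear_combination (-κ * f x) * e3
    exact mul_left_cancel₀ hκ this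
  · have e5 : -κ * f 0 * Real.sin (κ * x) = -(κ * f 0) * Real.sin (κ * x) := by ring
    rw [e5, ← e1, ← e2]
    linear_combination (-g x) * e3

private theorem on_zero (G : MetricGraph) (F : G.Pt → ℝ) (e : G.E) :
    G.onEdge F e 0 = F (Sum.inl (G.src e)) := by
  unfold MetricGraph.onEdge
  rw [dif_neg (by simp), if_pos le_rfl]

private theorem on_len (G : MetricGraph) (F : G.Pt → ℝ) (e : G.E) :
    G.onEdge F e (G.len e) = F (Sum.inl (G.tgt e)) := by
  unfold MetricGraph.onEdge
  rw [dif_neg (by simp), if_neg (not_le.2 (G.len_pos e))]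

private theorem on_int (G : MetricGraph) (F : G.Pt → ℝ) (e : G.E) (x : ℝ)
    (hx : x ∈ Ioo (0 : ℝ) (G.len e)) : G.onEdge F e x = F (Sum.inr ⟨e, ⟨x, hx⟩⟩) := by
  unfold MetricGraph.onEdge
  rw [dif_pos hx]

private theorem fn_on (G : MetricGraph) {κ : ℝ} {A B : G.E → ℝ} {W : G.V → ℝ} (e : G.E)
    (h : A e = W (G.src e) ∧
      A e * Real.cos (κ * G.len e) + B e * Real.sin (κ * G.len e) = W (G.tgt e)) {x : ℝ}
    (hx : x ∈ Icc (0 : ℝ) (G.len e)) :
    G.onEdge (fn G κ A B W) e x = A e * Real.cos (κ * x) + B e * Real.sin (κ * x) := by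
  rcases eq_or_lt_of_le hx.1 with h1 | h1
  · rw [← h1, on_zero]
    simp [fn, h.1]
  rcases eq_or_lt_of_le hx.2 with h2 | h2
  · rw [h2, on_len]
    simp only [fn]
    exact h.2.symm
  rw [on_int G _ e x ⟨h1, h2⟩]
  rfl

theorem hC2 : StC2 := by
  intro G α κ hκ F
  constructor
  · rintro ⟨D, h1, h2⟩
    have sol : ∀ e, ∀ x ∈ Icc (0 : ℝ) (G.len e),
        G.onEdge F e x = G.onEdge F e 0 * Real.cos (κ * x) + D e 0 / κ * Real.sin (κ * x) ∧
        D e x = -κ * G.onEdge F e 0 * Real.sin (κ * x) + D e 0 * Real.cos (κ * x) := by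
      intro e
      exact ode_pos (G.len_pos e) hκ.ne' (fun x hx => (h1 e x hx).1) (fun x hx => (h1 e x hx).2)
    have hend : ∀ e, G.len e ∈ Icc (0 : ℝ) (G.len e) := fun e => ⟨(G.len_pos e).le, le_rfl⟩
    refine ⟨fun e => F (Sum.inl (G.src e)), fun e => D e 0 / κ, fun v => F (Sum.inl v),
      ⟨fun e => ⟨rfl, ?_⟩, fun v => ?_⟩, ?_⟩
    · have := (sol e _ (hend e)).1
      rw [on_zero, on_len] at this
      exact this.symm
    · rw [← h2 v]
      refine Finset.sum_congr rfl fun e _ => ?_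
      have h3 := (sol e _ (hend e)).2
      rw [on_zero] at h3
      have h4 : κ * (D e 0 / κ) = D e 0 := by field_simp
      have h5 : κ * (F (Sum.inl (G.src e)) * Real.sin (κ * G.len e) -
          D e 0 / κ * Real.cos (κ * G.len e)) = -D e (G.len e) := by
        rw [h3]
        field_simp
        ring
      rw [h4, h5]
    · funext p
      rcases p with v | ⟨e, x⟩
      · rfl
      · obtain ⟨x, hx⟩ := x
        have := (sol e x ⟨hx.1.le, hx.2.le⟩).1
        rw [on_zero, on_int G F e x hx] at this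
        simp only [fn]
        exact this
  · rintro ⟨A, B, W, ⟨h1, h2⟩, rfl⟩
    refine ⟨fun e x => κ * (B e * Real.cos (κ * x) - A e * Real.sin (κ * x)), ?_, ?_⟩
    · intro e x hx
      constructor
      · have h3 : HasDerivAt (fun x : ℝ => A e * Real.cos (κ * x) + B e * Real.sin (κ * x))
            (κ * (B e * Real.cos (κ * x) - A e * Real.sin (κ * x))) x := by
          refine (((hcos κ x).const_mul (A e)).add ((hsin κ x).const_mul (B e))).congr_deriv ?_
          ring
        refine h3.hasDerivWithinAt.congr (fun y hy => fn_on G e (h1 e) hy) (fn_on G e (h1 e) hx)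
      · rw [fn_on G e (h1 e) hx]
        have h3 : HasDerivAt (fun x : ℝ => κ * (B e * Real.cos (κ * x) - A e * Real.sin (κ * x)))
            (-κ ^ 2 * (A e * Real.cos (κ * x) + B e * Real.sin (κ * x))) x := by
          refine ((((hcos κ x).const_mul (B e)).sub
            ((hsin κ x).const_mul (A e))).const_mul κ).congr_deriv ?_
          ring
        exact h3.hasDerivWithinAt
    · intro v
      have h3 := h2 v
      simp only [fn]
      rw [← h3]
      refine Finset.sum_congr rfl fun e _ => ?_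
      simp only [mul_zero, Real.cos_zero, Real.sin_zero, mul_one, sub_zero]
      congr 1
      split_ifs
      · ring
      · rfl

end Pool.Agent.Helper13.HQ
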